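import Pool.Agent.helper5.SYM.SpecA

/-!
# Row sy:JV: joining keeps voltages
-/

set_option autoImplicit false

namespace Pool.Agent.SYM
open Finset CT Polynomial

theorem JV : JV_stmt := by
  intro D A _ _ e α x y β he hα hxy hx hy
  obtain ⟨h1, h2⟩ := hα
  have inv : ∀ {a b : D}, e a = b → a = e b := fun {a b} h => by rw [← h, he]
  constructor
  · intro d
    by_cases hd : d = x ∨ d = y
    · have j1 : join e x y d = d := by
        unfold join
        rw [if_pos hd]
      rw [j1]
      have j2 : jv e α x y β d = 0 := by
        unfold jv
        rw [if_pos hd]
      rw [j2, neg_zero]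
    · obtain ⟨hdx, hdy⟩ := not_or.mp hd
      by_cases h3 : e d = x
      · have j1 : join e x y d = e y := by
          unfold join
          rw [if_neg hd, if_pos h3]
        have j2 : jv e α x y β d = α d + β + α y := by
          unfold jv
          rw [if_neg hd, if_pos h3]
        have k1 : e y ≠ x := by
          intro h
          exact hdy ((inv h3).trans (inv h).symm)
        have j3 : jv e α x y β (e y) = α (e y) - β + α x := by
          unfold jv
          rw [if_neg (not_or.mpr ⟨k1, hy⟩), he, if_neg (Ne.symm hxy), if_pos rfl]
        rw [j1, j2, j3, h1 y, ← h3, h1 d]
        abel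
      · by_cases h4 : e d = y
        · have j1 : join e x y d = e x := by
            unfold join
            rw [if_neg hd, if_neg h3, if_pos h4]
          have j2 : jv e α x y β d = α d - β + α x := by
            unfold jv
            rw [if_neg hd, if_neg h3, if_pos h4]
          have k1 : e x ≠ y := by
            intro h
            exact hdx ((inv h4).trans (inv h).symm)
          have j3 : jv e α x y β (e x) = α (e x) + β + α y := by
            unfold jv
            rw [if_neg (not_or.mpr ⟨hx, k1⟩), he, if_pos rfl]
          rw [j1, j2, j3, h1 x, ← h4, h1 d]
          abel
        · have j1 : join e x y d = e d := by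
            unfold join
            rw [if_neg hd, if_neg h3, if_neg h4]
          have j2 : jv e α x y β d = α d := by
            unfold jv
            rw [if_neg hd, if_neg h3, if_neg h4]
          have j3 : jv e α x y β (e d) = α (e d) := by
            unfold jv
            rw [if_neg (not_or.mpr ⟨h3, h4⟩), he, if_neg hdx, if_neg hdy]
          rw [j1, j2, j3, h1 d]
  · intro d
    by_cases hd : d = x ∨ d = y
    · intro _
      unfold jv
      rw [if_pos hd]
    · obtain ⟨hdx, hdy⟩ := not_or.mp hd
      unfold join jv
      rw [if_neg hd, if_neg hd]
      by_cases h3 : e d = x
      · rw [if_pos h3]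
        intro h
        exact absurd (h3.symm.trans (inv h).symm) hxy
      · rw [if_neg h3, if_neg h3]
        by_cases h4 : e d = y
        · rw [if_pos h4]
          intro h
          exact absurd ((inv h).trans h4) hxy
        · rw [if_neg h4, if_neg h4]
          exact h2 d

end Pool.Agent.SYM
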