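import Pool.Agent.helper5.SYM.SpecA

/-!
# Row sy:NA: sums over a concatenation
-/

set_option autoImplicit false

namespace Pool.Agent.SYM
open Finset CT Polynomial

theorem NA : NA_stmt := by
  intro W _ R L₁ L₂
  induction L₁ with
  | nil => intro e; rfl
  | cons u L ih =>
    intro e
    show (∑ t : Fin 3, if ls e u t = 0 then NL R (L ++ L₂) (sm e u t) else 0) =
      ∑ t : Fin 3, if ls e u t = 0 then NL (NL R L₂) L (sm e u t) else 0
    simp only [ih]

end Pool.Agent.SYM
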