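import Pool.Agent.helper5.SYM.SpecA

/-!
# Row sy:SMA: smoothing a vertex keeps activity and voltages
-/

set_option autoImplicit false

namespace Pool.Agent.SYM
open Finset CT Polynomial

lemma SMA_pr (t : Fin 3) : (pr t).1 ≠ (pr t).2.1 ∧ (pr t).1 ≠ (pr t).2.2.1 ∧
    (pr t).1 ≠ (pr t).2.2.2 ∧ (pr t).2.1 ≠ (pr t).2.2.1 ∧ (pr t).2.1 ≠ (pr t).2.2.2 ∧
    (pr t).2.2.1 ≠ (pr t).2.2.2 ∧
    ∀ i : Fin 4, i = (pr t).1 ∨ i = (pr t).2.1 ∨ i = (pr t).2.2.1 ∨ i = (pr t).2.2.2 := by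
  revert t
  decide

theorem SMA (hJV : JV_stmt) : SMA_stmt := by
  intro W A _ _ S E e α u t huS hE hact hvol
  obtain ⟨p1, p2, p3, p4, p5, p6, p7⟩ := SMA_pr t
  have k : ∀ {i j : Fin 4}, i ≠ j → (u, i) ≠ (u, j) := by
    intro i j hij h
    exact hij (Prod.mk.inj h).2
  have hmem : ∀ i : Fin 4, (u, i) ∈ dts (insert u S) ∪ E := by
    intro i
    exact mem_union_left _ (mem_product.mpr ⟨mem_insert_self _ _, mem_univ _⟩)
  have a1 := join_act hact (hmem (pr t).1) (hmem (pr t).2.1) (k p1)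
  have m3 : (u, (pr t).2.2.1) ∈ ((dts (insert u S) ∪ E).erase (u, (pr t).1)).erase
      (u, (pr t).2.1) :=
    mem_erase.mpr ⟨k (Ne.symm p4), mem_erase.mpr ⟨k (Ne.symm p2), hmem _⟩⟩
  have m4 : (u, (pr t).2.2.2) ∈ ((dts (insert u S) ∪ E).erase (u, (pr t).1)).erase
      (u, (pr t).2.1) :=
    mem_erase.mpr ⟨k (Ne.symm p5), mem_erase.mpr ⟨k (Ne.symm p3), hmem _⟩⟩
  have a2 := join_act a1 m3 m4 (k p6)
  have hset : ((((dts (insert u S) ∪ E).erase (u, (pr t).1)).erase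
      (u, (pr t).2.1)).erase (u, (pr t).2.2.1)).erase (u, (pr t).2.2.2) = dts S ∪ E := by
    ext d
    obtain ⟨w, i⟩ := d
    simp only [mem_erase, mem_union, dts, mem_product, mem_univ, and_true, mem_insert, ne_eq,
      Prod.mk.injEq]
    constructor
    · rintro ⟨h4, h3, h2, h1, (rfl | h) | h⟩
      · exfalso
        rcases p7 i with h | h | h | h
        · exact h1 ⟨rfl, h⟩
        · exact h2 ⟨rfl, h⟩
        · exact h3 ⟨rfl, h⟩
        · exact h4 ⟨rfl, h⟩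
      · exact Or.inl h
      · exact Or.inr h
    · intro h
      have hw : w ≠ u := by
        rcases h with h | h
        · rintro rfl
          exact huS h
        · exact hE _ h
      refine ⟨fun h' => hw h'.1, fun h' => hw h'.1, fun h' => hw h'.1, fun h' => hw h'.1, ?_⟩
      rcases h with h | h
      · exact Or.inl (Or.inr h)
      · exact Or.inr h
  rw [hset] at a2
  refine ⟨a2, ?_⟩
  have n1 : e (u, (pr t).1) ≠ (u, (pr t).1) := (hact.2 _).2 (hmem _)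
  have n2 : e (u, (pr t).2.1) ≠ (u, (pr t).2.1) := (hact.2 _).2 (hmem _)
  have v1 := hJV _ A e α (u, (pr t).1) (u, (pr t).2.1) 0 hact.1 hvol (k p1) n1 n2
  have n3 := (a1.2 _).2 m3
  have n4 := (a1.2 _).2 m4
  exact hJV _ A _ _ (u, (pr t).2.2.1) (u, (pr t).2.2.2) 0 a1.1 v1 (k p6) n3 n4

end Pool.Agent.SYM
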