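import Pool.Agent.helper5.SYM.SpecA

/-!
# Row sy:SML: smoothing a list of vertices keeps activity and voltages
-/

set_option autoImplicit false

namespace Pool.Agent.SYM
open Finset CT Polynomial

theorem SML (hSMA : SMA_stmt) : SML_stmt := by
  intro W A _ _ L
  induction L with
  | nil =>
    intro E e α t _ _ hact hvol
    have h : dts (([] : List W).toFinset) ∪ E = E := by
      rw [List.toFinset_nil]
      unfold dts
      rw [Finset.empty_product, Finset.empty_union]
    rw [h] at hact
    exact ⟨hact, hvol⟩
  | cons u L ih =>
    intro E e α t hnd hE hact hvol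
    rw [List.nodup_cons] at hnd
    rw [List.toFinset_cons] at hact
    obtain ⟨h1, h2⟩ := hSMA W A L.toFinset E e α u (t u) (by rw [List.mem_toFinset]; exact hnd.1)
      (fun x hx h => hE x hx (h ▸ List.mem_cons_self)) hact hvol
    exact ih E (sm e u (t u)) (smv e α u (t u)) t hnd.2
      (fun x hx h => hE x hx (List.mem_cons_of_mem _ h)) h1 h2

end Pool.Agent.SYM
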